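import Pool.Agent.Y92.ZX.Stm4
import Pool.Agent.Y92.ZX.Finish

/-!
# Project ZXM: finiteness for the mixed special subvarieties
-/

set_option autoImplicit false
set_option linter.unusedSectionVars false

open UpperHalfPlane H294ZP Polynomial

namespace Pool.Agent.Y949.ZX

open Pool.Agent.Y226 Pool.Agent.Y226.ZG Pool.Agent.Y226.ZM Pool.Agent.Y226.ZU Pool.Agent.Y92.ZX

theorem mixx (h1 : S_COMB) (h2 : S_MFIN) (h3 : S_FIN) : S_MIXX := by
  classical
  intro n k K κ F hgen Γ hΓ W p lam nu lamu hlam hnu hlamu hK3 hK c hc hbs hp hpi f hf hpk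
  obtain ⟨G₁, hG₁⟩ := h1 n k K _ Γ W p lam nu lamu hK3 hK c hc hbs hp hpi f hf hpk
  have hi₀ : 0 < K := by omega
  obtain ⟨i₀, -⟩ : ∃ i₀ : Fin K, i₀ = ⟨0, hi₀⟩ := ⟨_, rfl⟩
  obtain ⟨pk₀⟩ := hpk i₀
  obtain ⟨hMF1, hMF2⟩ := h2
  -- the scaling
  obtain ⟨lam₀, hlam₀⟩ : ∃ lam₀ : Fin (n + k) → QA, lam₀ = Fin.append lam (lamu i₀) := ⟨_, rfl⟩
  have hl₀l : ∀ j, lam₀ (Fin.castAdd k j) = lam j := fun j => by rw [hlam₀, Fin.append_left]
  have hl₀r : ∀ l, lam₀ (Fin.natAdd n l) = lamu i₀ l := fun l => by rw [hlam₀, Fin.append_right]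
  have hlam₀0 : ∀ i, lam₀ i ≠ 0 := by
    intro i
    refine Fin.addCases (motive := fun i => lam₀ i ≠ 0) ?_ ?_ i
    · intro j; rw [hl₀l]; exact hlam j
    · intro l; rw [hl₀r]; exact hlamu i₀ l
  have hFIN := (h3 (n + k) κ F hgen lam₀ hlam₀0).1
  have hconst : ∀ {r : ℕ} (Z : SV Γ n r), ∀ i, ∃ c : QA, rA c = Z.const i := fun Z i =>
    int_algS hΓ _ (Z.int i)
  have hnuC : ∀ l, rA (nu l) ≠ 0 := fun l => (map_ne_zero rA).2 (hnu l)
  -- the image of a point
  let E : (Fin (n + k) → ℂ) → (Fin (n + k) → ℂ) := fun y =>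
    Fin.append (fun j => rA (lam j) * y (Fin.castAdd k j)) (fun l => rA (nu l) * y (Fin.natAdd n l))
  have hEl : ∀ y j, E y (Fin.castAdd k j) = rA (lam j) * y (Fin.castAdd k j) :=
    fun y j => Fin.append_left _ _ _
  have hEr : ∀ y l, E y (Fin.natAdd n l) = rA (nu l) * y (Fin.natAdd n l) :=
    fun y l => Fin.append_right _ _ _
  have hxE : ∀ {x y : Fin (n + k) → ℂ},
      (∀ j, x (Fin.castAdd k j) = rA (lam j) * y (Fin.castAdd k j)) →
      (∀ l, x (Fin.natAdd n l) = rA (nu l) * y (Fin.natAdd n l)) → x = E y := by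
    intro x y hx1 hx2
    funext i
    refine Fin.addCases (motive := fun i => x i = E y i) ?_ ?_ i
    · intro j; rw [hEl, hx1]
    · intro l; rw [hEr, hx2]
  -- algebraic points are on the curve
  have hOn : ∀ y ∈ VF F, ∀ s : Fin (n + k) → QA, (∀ i, rA (s i) = y i) →
      ∀ t, MvPolynomial.eval (chv none s) (F t) = 0 := by
    intro y hy s hs t
    apply rA.injective
    have h1 := hy t
    have h2 : (fun i => rA (s i)) = y := funext hs
    rw [← h2] at h1
    have h3 : chv none (fun i => rA (s i)) = fun q => rA (chv none s q) := chv_map rA none s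
    rw [h3] at h1
    rw [map_zero, ← h1, MvPolynomial.eval_eq', map_sum, MvPolynomial.eval₂_eq']
    refine Finset.sum_congr rfl fun m _ => ?_
    rw [map_mul, map_prod]
    simp only [map_pow]
  -- torsion cosets
  have htor : ∀ a : Fin k → ℤ, a ≠ 0 → ∀ (τ : ℂ) (o : ℕ), 0 < o → τ ^ o = 1 →
      {y : Fin (n + k) → ℂ | y ∈ VF F ∧ (∀ l, y (Fin.natAdd n l) ≠ 0) ∧
        ∏ l, (rA (nu l) * y (Fin.natAdd n l)) ^ a l = τ}.Finite ∧
      ∀ y ∈ VF F, (∀ l, y (Fin.natAdd n l) ≠ 0) →
        ∏ l, (rA (nu l) * y (Fin.natAdd n l)) ^ a l = τ →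
        ∃ s : Fin (n + k) → QA, ∀ i, rA (s i) = y i := by
    intro a ha τ o ho hτ
    obtain ⟨t, ht⟩ := root_QA ho hτ
    have hP0 : (∏ l, nu l ^ a l) ≠ 0 := Finset.prod_ne_zero_iff.2 fun l _ => zpow_ne_zero _ (hnu l)
    obtain ⟨e1, e2⟩ := hMF1 (n + k) κ F hgen (ext n a) (ext_ne ha) (t / ∏ l, nu l ^ a l)
    have hsup : ∀ y : Fin (n + k) → ℂ, (∀ l, y (Fin.natAdd n l) ≠ 0) →
        ∀ i, ext n a i ≠ 0 → y i ≠ 0 := fun y hy =>
      ext_supp (Q := fun i => y i ≠ 0) fun l _ => hy l
    have hval : ∀ y : Fin (n + k) → ℂ, ∏ l, (rA (nu l) * y (Fin.natAdd n l)) ^ a l = τ →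
        ∏ i, y i ^ ext n a i = rA (t / ∏ l, nu l ^ a l) := by
      intro y hy
      have hP0' : rA (∏ l, nu l ^ a l) ≠ 0 := (map_ne_zero rA).2 hP0
      rw [prod_ext, map_div₀, eq_div_iff hP0', ht, ← hy, map_prod, ← Finset.prod_mul_distrib]
      refine Finset.prod_congr rfl fun l _ => ?_
      rw [map_zpow₀, mul_zpow, mul_comm]
    refine ⟨e1.subset fun y hy => ⟨hy.1, hsup y hy.2.1, hval y hy.2.2⟩, fun y hy hy0 hyτ => ?_⟩
    exact e2 y hy (hsup y hy0) (hval y hyτ)
  have hbot : ∀ M : Submodule ℤ (Fin k → ℤ), Module.finrank ℤ M ≠ 0 → ∃ a ∈ M, a ≠ 0 := by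
    intro M hM
    by_contra hcon
    push Not at hcon
    have h1 : M = ⊥ := (Submodule.eq_bot_iff M).2 hcon
    rw [h1, finrank_bot] at hM
    exact hM rfl
  refine ⟨?_, ?_⟩
  · -- finiteness
    set Q : Finset (Fin (n + k) × Fin (n + k) × ℕ) :=
      Finset.univ ×ˢ Finset.univ ×ˢ Finset.range (G₁ + pk₀.G + 1) with hQ
    have hU : (⋃ q ∈ Q, {y | y ∈ VF F ∧ (q.1 ≠ q.2.1 ∧ 0 < q.2.2 ∧
        PsiE ιZ (mP q.2.2) (mD q.2.2) (rA (lam₀ q.1) * y q.1)
          (rA (lam₀ q.2.1) * y q.2.1) = 0)}).Finite := by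
      refine Set.Finite.biUnion (Finset.finite_toSet _) fun q _ => ?_
      by_cases h : q.1 ≠ q.2.1 ∧ 0 < q.2.2
      · exact (hFIN q.1 q.2.1 h.1 q.2.2 h.2).subset fun y hy => ⟨hy.1, hy.2.2.2⟩
      · refine Set.finite_empty.subset ?_
        rintro y ⟨-, h1, h2, -⟩
        exact h ⟨h1, h2⟩
    set R : Finset ((Fin k → ℤ) × ℕ) := (finite_Bv1 k W).toFinset ×ˢ Finset.range (G₁ + 1) with hR
    have hV : (⋃ q ∈ R, {y | y ∈ VF F ∧ q.1 ≠ 0 ∧ 0 < q.2 ∧ (∀ l, y (Fin.natAdd n l) ≠ 0) ∧
        (∏ l, (rA (nu l) * y (Fin.natAdd n l)) ^ q.1 l) ^ q.2 = 1}).Finite := by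
      refine Set.Finite.biUnion (Finset.finite_toSet _) fun q _ => ?_
      by_cases h : q.1 ≠ 0 ∧ 0 < q.2
      · have hb0 : (fun l => (q.2 : ℤ) * q.1 l) ≠ 0 := by
          intro h0
          apply h.1
          funext l
          have h1 := congrFun h0 l
          simp only [Pi.zero_apply] at h1 ⊢
          rcases mul_eq_zero.1 h1 with h2 | h2
          · have := h.2
            omega
          · exact h2
        refine (htor _ hb0 1 1 one_pos (one_pow 1)).1.subset ?_
        rintro y ⟨hy, -, -, hy0, hy1⟩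
        refine ⟨hy, hy0, ?_⟩
        rw [← hy1, ← zpow_natCast, prod_zpow_pow]
      · refine Set.finite_empty.subset ?_
        rintro y ⟨-, h1, h2, -⟩
        exact h ⟨h1, h2⟩
    refine ((hU.union hV).image E).subset ?_
    rintro x ⟨⟨y, hy, hx1, hx2⟩, hx0, r, Z, M, η, hη, hr, hZ, hM⟩
    have hxy := hxE hx1 hx2
    subst hxy
    have hZ' : (fun j => rA (lam j) * y (Fin.castAdd k j)) ∈ Z.locus := by
      have e : (fun j => E y (Fin.castAdd k j)) = fun j => rA (lam j) * y (Fin.castAdd k j) :=
        funext fun j => hEl y j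
      rw [← e]
      exact hZ
    have hy0 : ∀ l, y (Fin.natAdd n l) ≠ 0 := by
      intro l h0
      apply hx0 l
      rw [hEr, h0, mul_zero]
    refine ⟨y, ?_, rfl⟩
    by_cases ht : Module.finrank ℤ M = 0
    · left
      rw [ht, add_zero] at hr
      obtain ⟨s, hs⟩ := (hMF2 n k κ F hgen lam hlam Γ r Z (by omega) (hconst Z)).2 y hy hZ'
      have hl : ∀ j, rA (lam₀ (Fin.castAdd k j) * s (Fin.castAdd k j)) =
          rA (lam j) * y (Fin.castAdd k j) := by
        intro j
        rw [hl₀l, map_mul, hs]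
      let cls' : Fin (n + k) → Option (Fin (r + k)) :=
        Fin.append (fun j => (Z.cls j).map (Fin.castAdd k)) (fun l => some (Fin.natAdd r l))
      have hcl : ∀ j, cls' (Fin.castAdd k j) = (Z.cls j).map (Fin.castAdd k) :=
        fun j => Fin.append_left _ _ _
      have hcr : ∀ l, cls' (Fin.natAdd n l) = some (Fin.natAdd r l) :=
        fun l => Fin.append_right _ _ _
      have hne : ∀ (a : Fin r) (b : Fin k), Fin.castAdd k a ≠ Fin.natAdd r b := by
        intro a b hab
        have h1 := congrArg Fin.val hab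
        simp only [Fin.val_castAdd, Fin.val_natAdd] at h1
        have := a.2
        omega
      obtain ⟨j, l, hjl, N', hN0, hN, hΨ⟩ := pk₀.core s (hOn y hy s hs) (r + k) cls' (by omega)
        (by
          intro i
          refine Fin.addCases (motive := fun i => cls' i = none →
            IsIntegral (Algebra.adjoin ℤ Γ) (rA (Fin.append lam (lamu i₀) i * s i))) ?_ ?_ i
          · intro j hj
            rw [hcl, Option.map_eq_none_iff] at hj
            rw [← hlam₀, hl]
            obtain ⟨z, hz⟩ := hZ'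
            have h5 : rA (lam j) * y (Fin.castAdd k j) = Z.const j := (hz j).1 hj
            rw [h5]
            exact Z.int j
          · intro l hl
            rw [hcr] at hl
            exact absurd hl (by simp))
        (by
          intro j l
          rw [← hlam₀]
          refine Fin.addCases (motive := fun j => ∀ c, j ≠ l → cls' j = some c → cls' l = some c →
            ∃ (w w' : ℍ) (a b c' d' : ℤ), 0 < a * d' - b * c' ∧
              (w' : ℂ) * (c' * w + d') = a * w + b ∧ rA (lam₀ j * s j) = jj w ∧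
              rA (lam₀ l * s l) = jj w') ?_ ?_ j
          · intro j
            refine Fin.addCases (motive := fun l => ∀ c, Fin.castAdd k j ≠ l →
              cls' (Fin.castAdd k j) = some c → cls' l = some c →
              ∃ (w w' : ℍ) (a b c' d' : ℤ), 0 < a * d' - b * c' ∧
                (w' : ℂ) * (c' * w + d') = a * w + b ∧
                rA (lam₀ (Fin.castAdd k j) * s (Fin.castAdd k j)) = jj w ∧
                rA (lam₀ l * s l) = jj w') ?_ ?_ l
            · intro l c _ hj hl'
              rw [hcl, Option.map_eq_some_iff] at hj hl'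
              obtain ⟨c1, hc1, hc1'⟩ := hj
              obtain ⟨c2, hc2, hc2'⟩ := hl'
              have hc12 : c1 = c2 := by
                have h5 := hc1'.trans hc2'.symm
                have h6 := congrArg Fin.val h5
                simp only [Fin.val_castAdd] at h6
                exact Fin.ext h6
              subst hc12
              obtain ⟨a', b', c', d', hdet, hrel⟩ := Z.rel_unif hc1 hc2
              obtain ⟨w, w', hww, hw, hw'⟩ := hrel _ hZ'
              refine ⟨w, w', a', b', c', d', hdet, hww, ?_, ?_⟩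
              · rw [hl]; exact hw
              · rw [hl]; exact hw'
            · intro l c _ hj hl'
              rw [hcl, Option.map_eq_some_iff] at hj
              rw [hcr, Option.some_inj] at hl'
              obtain ⟨c1, hc1, hc1'⟩ := hj
              exact absurd (hc1'.trans hl'.symm) (hne c1 l)
          · intro j
            refine Fin.addCases (motive := fun l => ∀ c, Fin.natAdd n j ≠ l →
              cls' (Fin.natAdd n j) = some c → cls' l = some c →
              ∃ (w w' : ℍ) (a b c' d' : ℤ), 0 < a * d' - b * c' ∧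
                (w' : ℂ) * (c' * w + d') = a * w + b ∧
                rA (lam₀ (Fin.natAdd n j) * s (Fin.natAdd n j)) = jj w ∧
                rA (lam₀ l * s l) = jj w') ?_ ?_ l
            · intro l c _ hj hl'
              rw [hcl, Option.map_eq_some_iff] at hl'
              rw [hcr, Option.some_inj] at hj
              obtain ⟨c1, hc1, hc1'⟩ := hl'
              exact absurd (hc1'.trans hj.symm) (hne c1 j)
            · intro l c hjl hj hl'
              rw [hcr, Option.some_inj] at hj hl'
              exfalso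
              apply hjl
              have h5 := congrArg Fin.val (hj.trans hl'.symm)
              simp only [Fin.val_natAdd] at h5
              have h6 : j = l := Fin.ext (by omega)
              rw [h6])
      rw [Set.mem_iUnion₂]
      refine ⟨(j, l, N'), ?_, hy, hjl, hN0, ?_⟩
      · simp only [hQ, Finset.mem_product, Finset.mem_univ, Finset.mem_range, true_and]
        omega
      · rw [← hlam₀, map_mul, map_mul, hs, hs] at hΨ
        exact hΨ
    · -- the point is algebraic
      obtain ⟨a, haM, ha0⟩ := hbot M ht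
      obtain ⟨o, ho, ho'⟩ := prod_root hη a
      have hprod : ∀ b : Fin k → ℤ, ∏ l, (rA (nu l) * y (Fin.natAdd n l)) ^ b l =
          ∏ l, E y (Fin.natAdd n l) ^ b l := fun b =>
        Finset.prod_congr rfl fun l _ => by rw [hEr]
      obtain ⟨s, hs⟩ := (htor a ha0 _ o ho ho').2 y hy hy0 (by rw [hprod]; exact hM a haM)
      have hXs : ∀ j, rA (lam j * s (Fin.castAdd k j)) = rA (lam j) * y (Fin.castAdd k j) := by
        intro j
        rw [map_mul, hs]
      have hUs : ∀ b : Fin k → ℤ, rA (∏ l, (nu l * s (Fin.natAdd n l)) ^ b l) =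
          ∏ l, (rA (nu l) * y (Fin.natAdd n l)) ^ b l := by
        intro b
        rw [map_prod]
        refine Finset.prod_congr rfl fun l _ => ?_
        rw [map_zpow₀, map_mul, hs]
      have hAt : Atyp Γ (fun j => rA (lam j * s (Fin.castAdd k j)))
          (fun l => nu l * s (Fin.natAdd n l)) Z.cls M := by
        refine ⟨?_, ?_, ?_⟩
        · intro j hj
          show IsIntegral _ (rA _)
          rw [hXs]
          obtain ⟨z, hz⟩ := hZ'
          have h5 : rA (lam j) * y (Fin.castAdd k j) = Z.const j := (hz j).1 hj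
          rw [h5]
          exact Z.int j
        · intro j l cc hcj hcl
          obtain ⟨a', b', c', d', hdet, hrel⟩ := Z.rel_unif hcj hcl
          obtain ⟨w, w', hww, hw, hw'⟩ := hrel _ hZ'
          exact ⟨w, w', a', b', c', d', hdet, hww, (hXs j).trans hw, (hXs l).trans hw'⟩
        · intro b hb
          obtain ⟨o, ho, ho'⟩ := prod_root hη b
          refine ⟨o, ho, rA.injective ?_⟩
          rw [map_pow, map_one, hUs, hprod, hM b hb, ho']
      rcases hG₁ s (hOn y hy s hs) r Z.cls M hr (by omega) hAt with ⟨j, l, hjl, N', h1, h2, h3⟩ |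
        ⟨b, hbW, hb0, o, ho, hoG, h3⟩
      · left
        rw [Set.mem_iUnion₂]
        refine ⟨(Fin.castAdd k j, Fin.castAdd k l, N'), ?_, hy, ?_, h1, ?_⟩
        · simp only [hQ, Finset.mem_product, Finset.mem_univ, Finset.mem_range, true_and]
          omega
        · intro h5
          apply hjl
          have h6 := congrArg Fin.val h5
          simp only [Fin.val_castAdd] at h6
          exact Fin.ext h6
        · show PsiE ιZ (mP N') (mD N') (rA (lam₀ (Fin.castAdd k j)) * y (Fin.castAdd k j))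
            (rA (lam₀ (Fin.castAdd k l)) * y (Fin.castAdd k l)) = 0
          rw [hl₀l, hl₀l, ← hXs, ← hXs]
          exact h3
      · right
        rw [Set.mem_iUnion₂]
        refine ⟨(b, o), ?_, hy, hb0, ho, hy0, ?_⟩
        · simp only [hR, Finset.mem_product, Finset.mem_range, Set.Finite.mem_toFinset,
            Set.mem_setOf_eq]
          exact ⟨hbW, by omega⟩
        · have h4 := congrArg rA h3
          rw [map_pow, map_one, hUs] at h4
          exact h4
  · -- fixed special subvarieties
    intro r Z M η hη hr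
    by_cases hrn : r < n
    · refine ((hMF2 n k κ F hgen lam hlam Γ r Z hrn (hconst Z)).1.image E).subset ?_
      rintro x ⟨⟨y, hy, hx1, hx2⟩, hx0, hZ, hM⟩
      have hxy := hxE hx1 hx2
      subst hxy
      refine ⟨y, ⟨hy, ?_⟩, rfl⟩
      have e : (fun j => E y (Fin.castAdd k j)) = fun j => rA (lam j) * y (Fin.castAdd k j) :=
        funext fun j => hEl y j
      rw [← e]
      exact hZ
    · obtain ⟨a, haM, ha0⟩ := hbot M (by omega)
      obtain ⟨o, ho, ho'⟩ := prod_root hη a
      refine ((htor a ha0 _ o ho ho').1.image E).subset ?_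
      rintro x ⟨⟨y, hy, hx1, hx2⟩, hx0, hZ, hM⟩
      have hxy := hxE hx1 hx2
      subst hxy
      refine ⟨y, ⟨hy, ?_, ?_⟩, rfl⟩
      · intro l h0
        apply hx0 l
        rw [hEr, h0, mul_zero]
      · rw [← hM a haM]
        exact Finset.prod_congr rfl fun l _ => by rw [hEr]

end Pool.Agent.Y949.ZX
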